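import Pool.Agent.Q292.Broadcast.Defs

/-!
# Merging overlapping balls

A family of balls which covers the graph and in which each ball meets another one (or is its whole
component) can be turned, without increasing the sum of the radii, into a maximal bn-independent
broadcast.
-/

namespace Pool.Agent.Q292.Broadcast

open SimpleGraph Finset

variable {V : Type*} {G : SimpleGraph V}

/-- A linked family of balls: balls `B(c i, r i)`, `i ∈ S`, of positive radii, which cover all
vertices, such that each ball is its whole component or meets another ball. -/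
structure Linked (G : SimpleGraph V) (S : Finset ℕ) (c : ℕ → V) (r : ℕ → ℕ) : Prop where
  pos : ∀ i ∈ S, 0 < r i
  dom : ∀ x, ∃ i ∈ S, Near G (c i) x (r i)
  link : ∀ i ∈ S, (∀ x, G.Reachable (c i) x → Near G (c i) x (r i)) ∨
    ∃ j ∈ S, j ≠ i ∧ ∃ x, Near G (c i) x (r i) ∧ Near G (c j) x (r j)

/-- No two balls overlap in an interior point of one of them. -/
def Separated (G : SimpleGraph V) (S : Finset ℕ) (c : ℕ → V) (r : ℕ → ℕ) : Prop :=
  ∀ i ∈ S, ∀ j ∈ S, i ≠ j → ∀ x, Near G (c i) x (r i) → ¬ Near G (c j) x (r j - 1)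

lemma merge_step {S : Finset ℕ} {c : ℕ → V} {r : ℕ → ℕ} (h : Linked G S c r) {i j : ℕ}
    (hi : i ∈ S) (hj : j ∈ S) (hij : i ≠ j) (hn : Near G (c i) (c j) (r i + r j - 1)) :
    ∃ z, Linked G (S.erase j) (Function.update c i z) (Function.update r i (r i + r j)) := by
  have hpi := h.pos i hi
  have hpj := h.pos j hj
  -- the two possible centres
  have hL : ∃ z, Near G z (c i) (r j - 1) ∧ Near G z (c j) (r i) := by
    have : Near G (c i) (c j) ((r j - 1) + r i) := by
      convert hn using 1; omega
    obtain ⟨z, h1, h2⟩ := near_split this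
    exact ⟨z, near_symm h1, h2⟩
  have hR : ∃ z, Near G z (c i) (r j) ∧ Near G z (c j) (r i - 1) := by
    have : Near G (c i) (c j) (r j + (r i - 1)) := by
      convert hn using 1; omega
    obtain ⟨z, h1, h2⟩ := near_split this
    exact ⟨z, near_symm h1, h2⟩
  -- it is enough to find a centre with the linking property
  suffices hz : ∃ z, Near G z (c i) (r j) ∧ Near G z (c j) (r i) ∧
      ((∀ x, G.Reachable z x → Near G z x (r i + r j)) ∨
        ∃ k ∈ S, k ≠ i ∧ k ≠ j ∧ ∃ x, Near G z x (r i + r j) ∧ Near G (c k) x (r k)) by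
    obtain ⟨z, hzi, hzj, hz⟩ := hz
    have hbi : ∀ x, Near G (c i) x (r i) → Near G z x (r i + r j) := fun x hx => by
      have := near_trans hzi hx
      rwa [Nat.add_comm] at this
    have hbj : ∀ x, Near G (c j) x (r j) → Near G z x (r i + r j) := fun x hx =>
      near_trans hzj hx
    refine ⟨z, ?_, ?_, ?_⟩
    · intro k hk
      by_cases hki : k = i
      · subst hki; simp; omega
      · rw [Function.update_of_ne hki]
        exact h.pos k (Finset.mem_of_mem_erase hk)
    · intro x
      obtain ⟨k, hk, hx⟩ := h.dom x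
      by_cases hki : k = i
      · subst hki
        exact ⟨k, Finset.mem_erase.2 ⟨hij, hi⟩, by simpa using hbi x hx⟩
      · by_cases hkj : k = j
        · subst hkj
          exact ⟨i, Finset.mem_erase.2 ⟨hij, hi⟩, by simpa using hbj x hx⟩
        · refine ⟨k, Finset.mem_erase.2 ⟨hkj, hk⟩, ?_⟩
          rw [Function.update_of_ne hki, Function.update_of_ne hki]
          exact hx
    · intro k hk
      obtain ⟨hkj, hkS⟩ := Finset.mem_erase.1 hk
      by_cases hki : k = i
      · subst hki
        rcases hz with hz | ⟨l, hl, hlk, hlj, x, hx1, hx2⟩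
        · left
          simpa using hz
        · right
          refine ⟨l, Finset.mem_erase.2 ⟨hlj, hl⟩, hlk, x, by simpa using hx1, ?_⟩
          rw [Function.update_of_ne hlk, Function.update_of_ne hlk]
          exact hx2
      · rw [Function.update_of_ne hki, Function.update_of_ne hki]
        rcases h.link k hkS with h1 | ⟨l, hl, hlk, x, hx1, hx2⟩
        · exact Or.inl h1
        · right
          by_cases hli : l = i
          · subst hli
            exact ⟨l, Finset.mem_erase.2 ⟨hij, hl⟩, hlk, x, hx1, by simpa using hbi x hx2⟩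
          · by_cases hlj : l = j
            · subst hlj
              exact ⟨i, Finset.mem_erase.2 ⟨hij, hi⟩, fun h => hki h.symm, x, hx1,
                by simpa using hbj x hx2⟩
            · refine ⟨l, Finset.mem_erase.2 ⟨hlj, hl⟩, hlk, x, hx1, ?_⟩
              rw [Function.update_of_ne hli, Function.update_of_ne hli]
              exact hx2
  -- choose the centre
  by_cases hA : ∃ x y, G.Adj x y ∧ Near G (c i) x (r i) ∧ ¬ Near G (c i) y (r i) ∧
      ¬ Near G (c j) y (r j)
  · obtain ⟨x, y, hxy, hx, hyi, hyj⟩ := hA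
    obtain ⟨z, h1, h2⟩ := hL
    obtain ⟨k, hk, hky⟩ := h.dom y
    refine ⟨z, near_mono h1 (by omega), h2, Or.inr ⟨k, hk, ?_, ?_, y, ?_, hky⟩⟩
    · rintro rfl; exact hyi hky
    · rintro rfl; exact hyj hky
    · have := near_trans (near_trans h1 hx) (near_adj hxy)
      exact near_mono this (by omega)
  · by_cases hB : ∃ x y, G.Adj x y ∧ Near G (c j) x (r j) ∧ ¬ Near G (c i) y (r i) ∧
        ¬ Near G (c j) y (r j)
    · obtain ⟨x, y, hxy, hx, hyi, hyj⟩ := hB
      obtain ⟨z, h1, h2⟩ := hR
      obtain ⟨k, hk, hky⟩ := h.dom y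
      refine ⟨z, h1, near_mono h2 (by omega), Or.inr ⟨k, hk, ?_, ?_, y, ?_, hky⟩⟩
      · rintro rfl; exact hyi hky
      · rintro rfl; exact hyj hky
      · have := near_trans (near_trans h2 hx) (near_adj hxy)
        exact near_mono this (by omega)
    · obtain ⟨z, h1, h2⟩ := hL
      refine ⟨z, near_mono h1 (by omega), h2, Or.inl ?_⟩
      -- the union of the two balls is closed under adjacency
      have hcl : ∀ x y, G.Adj x y → (Near G (c i) x (r i) ∨ Near G (c j) x (r j)) →
          (Near G (c i) y (r i) ∨ Near G (c j) y (r j)) := by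
        intro x y hxy hx
        by_contra hy
        push Not at hy
        rcases hx with hx | hx
        · exact hA ⟨x, y, hxy, hx, hy.1, hy.2⟩
        · exact hB ⟨x, y, hxy, hx, hy.1, hy.2⟩
      have hreach : ∀ x, G.Reachable (c i) x → (Near G (c i) x (r i) ∨ Near G (c j) x (r j)) := by
        rintro x ⟨p⟩
        have key : ∀ (u v : V) (p : G.Walk u v),
            (Near G (c i) u (r i) ∨ Near G (c j) u (r j)) →
            (Near G (c i) v (r i) ∨ Near G (c j) v (r j)) := by
          intro u v p
          induction p with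
          | nil => exact id
          | cons hadj _ ih => exact fun hu => ih (hcl _ _ hadj hu)
        exact key _ _ p (Or.inl (near_refl _ _ _))
      intro x hx
      rcases hreach x (h1.1.symm.trans hx) with hx' | hx'
      · have := near_trans (near_mono h1 (Nat.sub_le _ _)) hx'
        rwa [Nat.add_comm] at this
      · exact near_trans h2 hx'

/-- The merging lemma. -/
theorem exists_separated (n : ℕ) : ∀ (S : Finset ℕ) (c : ℕ → V) (r : ℕ → ℕ), S.card = n →
    Linked G S c r → ∃ (S' : Finset ℕ) (c' : ℕ → V) (r' : ℕ → ℕ),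
      Linked G S' c' r' ∧ Separated G S' c' r' ∧ ∑ i ∈ S', r' i = ∑ i ∈ S, r i := by
  induction n with
  | zero =>
    intro S c r hS h
    rw [Finset.card_eq_zero] at hS
    subst hS
    exact ⟨∅, c, r, h, by intro i hi; simp at hi, rfl⟩
  | succ n ih =>
    intro S c r hS h
    by_cases hsep : Separated G S c r
    · exact ⟨S, c, r, h, hsep, rfl⟩
    · unfold Separated at hsep
      push Not at hsep
      obtain ⟨i, hi, j, hj, hij, x, hx1, hx2⟩ := hsep
      have hpj := h.pos j hj
      have hn : Near G (c i) (c j) (r i + r j - 1) :=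
        near_mono (near_trans hx1 (near_symm hx2)) (by omega)
      obtain ⟨z, hz⟩ := merge_step h hi hj hij hn
      obtain ⟨S', c', r', h1, h2, h3⟩ := ih (S.erase j) _ _
        (by rw [Finset.card_erase_of_mem hj, hS]; rfl) hz
      refine ⟨S', c', r', h1, h2, h3.trans ?_⟩
      have hi' : i ∈ S.erase j := Finset.mem_erase.2 ⟨hij, hi⟩
      rw [Finset.sum_update_of_mem hi', ← Finset.add_sum_erase S r hj,
        ← Finset.add_sum_erase (S.erase j) r hi', ← Finset.erase_eq]
      ring

end Pool.Agent.Q292.Broadcast
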