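import Pool.Agent.Q292.Broadcast.Core

/-!
# From linked families to maximal bn-independent broadcasts
-/

namespace Pool.Agent.Q292.Broadcast

open SimpleGraph Finset

variable {V : Type*} [Fintype V] {G : SimpleGraph V}

lemma dist_le_ecc (v u : V) : G.dist v u ≤ ecc G v :=
  Finset.le_sup (f := fun u => G.dist v u) (Finset.mem_univ u)

lemma ecc_pos {v u : V} (h : G.Adj v u) : 0 < ecc G v := by
  have h1 := dist_le_ecc (G := G) v u
  have h2 : G.dist v u = 1 := dist_eq_one_iff_adj.2 h
  omega

lemma ecc_le {v : V} {r : ℕ} (h : ∀ x, G.Reachable v x → Near G v x r) : ecc G v ≤ r := by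
  unfold ecc
  apply Finset.sup_le
  intro u _
  by_cases hu : G.Reachable v u
  · exact (h u hu).2
  · rw [dist_eq_zero_of_not_reachable hu]; exact Nat.zero_le _

lemma eq_of_isolated {v x : V} (h : ∀ u, ¬ G.Adj v u) (hx : G.Reachable v x) : v = x := by
  obtain ⟨p⟩ := hx
  cases p with
  | nil => rfl
  | cons h' _ => exact absurd h' (h _)

lemma ecc_isolated {v : V} (h : ∀ u, ¬ G.Adj v u) : ecc G v = 0 := by
  have : ecc G v ≤ 0 := by
    apply ecc_le
    intro x hx
    rw [← eq_of_isolated h hx]
    exact near_refl _ _ _
  omega

/-- A separated linked family gives a maximal bn-independent broadcast. -/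
theorem exists_maxBn_of_separated {S : Finset ℕ} {c : ℕ → V} {r : ℕ → ℕ}
    (h : Linked G S c r) (hs : Separated G S c r) :
    ∃ f, IsMaxBn G f ∧ cost f ≤ ∑ i ∈ S, r i := by
  classical
  set cap : V → ℕ := fun v => max (ecc G v) 1 with hcap
  set ρ : ℕ → ℕ := fun i => min (r i) (cap (c i)) with hρ
  have hρr : ∀ i, ρ i ≤ r i := fun i => min_le_left _ _
  have hρpos : ∀ i ∈ S, 0 < ρ i := by
    intro i hi
    have := h.pos i hi
    simp only [hρ, hcap]
    omega
  have hball : ∀ i x, Near G (c i) x (r i) → Near G (c i) x (ρ i) := by
    intro i x hx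
    refine ⟨hx.1, le_min hx.2 ((dist_le_ecc _ _).trans (le_max_left _ _))⟩
  have hinj : ∀ i ∈ S, ∀ j ∈ S, c i = c j → i = j := by
    intro i hi j hj hij
    by_contra hne
    exact hs i hi j hj hne (c i) (near_refl _ _ _) (by rw [hij]; exact near_refl _ _ _)
  set f : V → ℕ := fun v => ∑ i ∈ S with c i = v, ρ i with hf
  have hfc : ∀ i ∈ S, f (c i) = ρ i := by
    intro i hi
    have : (S.filter fun j => c j = c i) = {i} := by
      ext j
      simp only [Finset.mem_filter, Finset.mem_singleton]
      constructor
      · rintro ⟨hj, hji⟩; exact hinj j hj i hi hji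
      · rintro rfl; exact ⟨hi, rfl⟩
    simp only [hf, this, Finset.sum_singleton]
  have hfpos : ∀ v, 0 < f v → ∃ i ∈ S, c i = v := by
    intro v hv
    by_contra hno
    push Not at hno
    have : f v = 0 := by
      simp only [hf]
      apply Finset.sum_eq_zero
      intro i hi
      rw [Finset.mem_filter] at hi
      exact absurd hi.2 (hno i hi.1)
    omega
  have hb : IsBroadcast G f := by
    intro v
    constructor
    · intro hv
      obtain ⟨i, hi, hx⟩ := h.dom v
      have hcv : c i = v := (eq_of_isolated hv hx.1.symm).symm
      rw [← hcv, hfc i hi]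
      have h1 := h.pos i hi
      have h2 : ecc G (c i) = 0 := by rw [hcv]; exact ecc_isolated hv
      simp only [hρ, hcap, h2]
      omega
    · rintro ⟨u, hu⟩
      by_cases h0 : 0 < f v
      · obtain ⟨i, hi, hcv⟩ := hfpos v h0
        rw [← hcv, hfc i hi]
        have h1 : 0 < ecc G (c i) := by rw [hcv]; exact ecc_pos hu
        simp only [hρ, hcap]
        omega
      · omega
  have hbn : BnIndep G f := by
    rintro x ⟨u, v, huv, hu, hv⟩ w hw hxw
    obtain ⟨i, hi, rfl⟩ := hfpos u hu.1
    obtain ⟨j, hj, rfl⟩ := hfpos v hv.1
    obtain ⟨k, hk, rfl⟩ := hfpos w hw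
    by_contra hlt
    push Not at hlt
    have hnear : Near G (c k) x (r k - 1) := by
      rw [hfc k hk] at hlt
      have := hρr k
      exact near_symm ⟨hxw, by omega⟩
    have hiN : Near G (c i) x (r i) := by
      have := hu.2
      rw [hfc i hi] at this
      exact near_symm (near_mono this (hρr i))
    have hjN : Near G (c j) x (r j) := by
      have := hv.2
      rw [hfc j hj] at this
      exact near_symm (near_mono this (hρr j))
    by_cases hik : i = k
    · subst hik
      have hji : j ≠ i := by rintro rfl; exact huv rfl
      exact hs j hj i hi hji x hjN hnear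
    · exact hs i hi k hk hik x hiN hnear
  have hmax : ∀ g, IsBroadcast G g → BnIndep G g → (∀ v, f v ≤ g v) → g = f := by
    intro g hg1 hg2 hle
    by_contra hne
    obtain ⟨v, hv⟩ := Function.ne_iff.1 hne
    have hlt : f v < g v := lt_of_le_of_ne (hle v) (Ne.symm hv)
    by_cases h0 : 0 < f v
    · obtain ⟨i, hi, rfl⟩ := hfpos v h0
      rw [hfc i hi] at hlt
      rcases h.link i hi with hcov | ⟨j, hj, hji, x, hx1, hx2⟩
      · have h1 := ecc_le hcov
        have h2 := h.pos i hi
        by_cases hiso : ∀ u, ¬ G.Adj (c i) u
        · have := (hg1 (c i)).1 hiso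
          have := hρpos i hi
          omega
        · push Not at hiso
          have := (hg1 (c i)).2 hiso
          simp only [hρ, hcap] at hlt
          omega
      · have hx1' := hball i x hx1
        have hx2' := hball j x hx2
        have hne' : c i ≠ c j := fun e => hji (hinj i hi j hj e).symm
        have hposj := hρpos j hj
        have hgj : ρ j ≤ g (c j) := by rw [← hfc j hj]; exact hle _
        have := hg2 x ⟨c i, c j, hne',
          ⟨by omega, near_mono (near_symm hx1') hlt.le⟩,
          ⟨by omega, near_mono (near_symm hx2') hgj⟩⟩ (c i) (by omega) hx1'.1.symm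
        have h3 := (near_symm hx1').2
        omega
    · obtain ⟨i, hi, hx⟩ := h.dom v
      have hx' := hball i v hx
      have hpi := hρpos i hi
      have hgi : ρ i ≤ g (c i) := by rw [← hfc i hi]; exact hle _
      have hne' : c i ≠ v := by
        rintro rfl
        rw [hfc i hi] at h0
        omega
      have := hg2 v ⟨c i, v, hne', ⟨by omega, near_mono (near_symm hx') hgi⟩,
        ⟨by omega, near_refl _ _ _⟩⟩ v (by omega) (Reachable.refl _)
      rw [dist_self] at this
      omega
  refine ⟨f, ⟨hb, hbn, hmax⟩, ?_⟩
  calc cost f = ∑ v, ∑ i ∈ S with c i = v, ρ i := rfl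
    _ = ∑ i ∈ S, ρ i := Finset.sum_fiberwise S c ρ
    _ ≤ ∑ i ∈ S, r i := Finset.sum_le_sum fun i _ => hρr i

/-- The form used below: a dominating broadcast-like function whose balls are linked. -/
theorem exists_maxBn_of_fun (f : V → ℕ) (hdom : ∀ x, ∃ v, Hears G f x v)
    (hlink : ∀ v, 0 < f v → (∀ x, G.Reachable v x → Near G v x (f v)) ∨
      ∃ u, u ≠ v ∧ 0 < f u ∧ ∃ x, Near G v x (f v) ∧ Near G u x (f u)) :
    ∃ g, IsMaxBn G g ∧ cost g ≤ cost f := by
  classical
  rcases isEmpty_or_nonempty V with hV | hV
  · refine ⟨f, ⟨fun v => isEmptyElim v, fun x => isEmptyElim x, fun g _ _ _ => ?_⟩, le_rfl⟩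
    exact Subsingleton.elim _ _
  · obtain ⟨v0⟩ := hV
    let e := Fintype.equivFin V
    let c : ℕ → V := fun i => if h : i < Fintype.card V then e.symm ⟨i, h⟩ else v0
    have hc : ∀ v, c (e v) = v := fun v => by simp [c]
    let S : Finset ℕ := (univ.filter fun v => 0 < f v).image fun v => (e v : ℕ)
    have hS : ∀ v, 0 < f v → (e v : ℕ) ∈ S := fun v hv =>
      Finset.mem_image.2 ⟨v, by simpa using hv, rfl⟩
    have hlin : Linked G S c (fun i => f (c i)) := by
      refine ⟨?_, ?_, ?_⟩
      · intro i hi
        obtain ⟨v, hv, rfl⟩ := Finset.mem_image.1 hi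
        simpa [hc] using hv
      · intro x
        obtain ⟨v, hv, hx⟩ := hdom x
        exact ⟨_, hS v hv, by simpa [hc] using near_symm hx⟩
      · intro i hi
        obtain ⟨v, hv, rfl⟩ := Finset.mem_image.1 hi
        rw [Finset.mem_filter] at hv
        rcases hlink v hv.2 with h1 | ⟨u, huv, hu, x, hx1, hx2⟩
        · left; simpa [hc] using h1
        · right
          refine ⟨_, hS u hu, ?_, x, by simpa [hc] using hx1, by simpa [hc] using hx2⟩
          intro h
          exact huv (e.injective (Fin.val_injective h))
    obtain ⟨S', c', r', h1, h2, h3⟩ := exists_separated _ S c _ rfl hlin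
    obtain ⟨g, hg1, hg2⟩ := exists_maxBn_of_separated h1 h2
    refine ⟨g, hg1, hg2.trans ?_⟩
    rw [h3, Finset.sum_image (fun a _ b _ h => e.injective (Fin.val_injective h))]
    simp only [hc]
    exact Finset.sum_le_sum_of_subset (Finset.filter_subset _ _)

/-- A maximal bn-independent broadcast is dominating. -/
lemma IsMaxBn.dom {f : V → ℕ} (h : IsMaxBn G f) (x : V) : ∃ v, Hears G f x v := by
  classical
  by_contra hno
  push Not at hno
  have hx0 : f x = 0 := by
    by_contra h0
    exact hno x ⟨by omega, near_refl _ _ _⟩
  have hiso : ∃ u, G.Adj x u := by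
    by_contra hiso
    push Not at hiso
    have := (h.1 x).1 hiso
    omega
  have hb : IsBroadcast G (Function.update f x 1) := by
    intro v
    by_cases hv : v = x
    · subst hv
      refine ⟨fun _ => by simp, fun _ => ?_⟩
      obtain ⟨u, hu⟩ := hiso
      have := ecc_pos hu
      simp; omega
    · rw [Function.update_of_ne hv]; exact h.1 v
  have hheard : ∀ y w, w ≠ x → Hears G (Function.update f x 1) y w → Hears G f y w := by
    intro y w hw hy
    unfold Hears at hy ⊢
    rwa [Function.update_of_ne hw] at hy
  have hbn : BnIndep G (Function.update f x 1) := by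
    rintro y ⟨u, v, huv, hu, hv⟩ w hw hyw
    -- an `f`-broadcaster different from `x` heard by `y`
    by_cases hwx : w = x
    · subst hwx
      rw [Function.update_self]
      by_contra hlt
      have h0 : G.dist y w = 0 := by omega
      have hyx : y = w := (hyw.dist_eq_zero_iff).1 h0
      subst hyx
      by_cases huy : u = y
      · subst huy
        exact hno v (hheard _ v (Ne.symm huv) hv)
      · exact hno u (hheard _ u huy hu)
    · rw [Function.update_of_ne hwx] at hw ⊢
      by_contra hlt
      push Not at hlt
      by_cases hboth : u ≠ x ∧ v ≠ x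
      · have := h.2.1 y ⟨u, v, huv, hheard _ _ hboth.1 hu, hheard _ _ hboth.2 hv⟩ w hw hyw
        omega
      · have hyx : Near G y x 1 := by
          rcases not_and_or.1 hboth with h1 | h1
          · push Not at h1
            subst h1
            simpa [Hears] using hu.2
          · push Not at h1
            subst h1
            simpa [Hears] using hv.2
        refine hno w ⟨hw, ?_⟩
        have := near_trans (near_symm hyx) (⟨hyw, le_rfl⟩ : Near G y w (G.dist y w))
        exact near_mono this (by omega)
  have := h.2.2 _ hb hbn (fun v => by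
    by_cases hv : v = x
    · subst hv; simp [hx0]
    · rw [Function.update_of_ne hv])
  have h1 := congrFun this x
  rw [Function.update_self, hx0] at h1
  omega

/-- In a maximal bn-independent broadcast each ball is its component or meets another ball. -/
lemma IsMaxBn.link {f : V → ℕ} (h : IsMaxBn G f) (v : V) (hv : 0 < f v) :
    (∀ x, G.Reachable v x → Near G v x (f v)) ∨
      ∃ u, u ≠ v ∧ 0 < f u ∧ ∃ x, Near G v x (f v) ∧ Near G u x (f u) := by
  classical
  by_contra hno
  push Not at hno
  obtain ⟨⟨x0, hx0, hx0'⟩, hno⟩ := hno
  have hecc : f v + 1 ≤ ecc G v := by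
    have h1 := dist_le_ecc (G := G) v x0
    have h2 : ¬ G.dist v x0 ≤ f v := fun h => hx0' ⟨hx0, h⟩
    omega
  have hiso : ¬ ∀ u, ¬ G.Adj v u := by
    intro hiso
    have := ecc_isolated hiso
    omega
  have hb : IsBroadcast G (Function.update f v (f v + 1)) := by
    intro w
    by_cases hw : w = v
    · subst hw
      exact ⟨fun h => absurd h hiso, fun _ => by simpa using hecc⟩
    · rw [Function.update_of_ne hw]; exact h.1 w
  have hheard : ∀ y w, w ≠ v → Hears G (Function.update f v (f v + 1)) y w → Hears G f y w := by
    intro y w hw hy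
    unfold Hears at hy ⊢
    rwa [Function.update_of_ne hw] at hy
  have hbn : BnIndep G (Function.update f v (f v + 1)) := by
    rintro y ⟨a, b, hab, ha, hb'⟩ w hw hyw
    by_cases hwv : w = v
    · subst hwv
      rw [Function.update_self]
      by_contra hlt
      push Not at hlt
      have hyv : Near G w y (f w) := near_symm ⟨hyw, by omega⟩
      by_cases haw : a = w
      · have := hheard y b (fun e => hab (haw.trans e.symm)) hb'
        exact hno b (fun e => hab (haw.trans e.symm)) this.1 y hyv (near_symm this.2)
      · have := hheard y a haw ha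
        exact hno a haw this.1 y hyv (near_symm this.2)
    · rw [Function.update_of_ne hwv] at hw ⊢
      by_contra hlt
      push Not at hlt
      by_cases hboth : a ≠ v ∧ b ≠ v
      · have := h.2.1 y ⟨a, b, hab, hheard _ _ hboth.1 ha, hheard _ _ hboth.2 hb'⟩ w hw hyw
        omega
      · have hyv : Near G y v (f v + 1) := by
          rcases not_and_or.1 hboth with h1 | h1
          · push Not at h1
            subst h1
            simpa [Hears] using ha.2
          · push Not at h1
            subst h1
            simpa [Hears] using hb'.2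
        obtain ⟨z, hz1, hz2⟩ := near_split (near_symm hyv)
        refine hno w hwv hw z hz1 (near_symm ?_)
        have := near_trans hz2 (⟨hyw, le_rfl⟩ : Near G y w (G.dist y w))
        exact near_mono this (by omega)
  have := h.2.2 _ hb hbn (fun w => by
    by_cases hw : w = v
    · subst hw; simp
    · rw [Function.update_of_ne hw])
  have h1 := congrFun this v
  rw [Function.update_self] at h1
  omega

/-- The same for maximal hearing independent broadcasts: dominating. -/
lemma IsMaxHear.dom {f : V → ℕ} (h : IsMaxHear G f) (x : V) : ∃ v, Hears G f x v := by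
  classical
  by_contra hno
  push Not at hno
  have hx0 : f x = 0 := by
    by_contra h0
    exact hno x ⟨by omega, near_refl _ _ _⟩
  have hiso : ∃ u, G.Adj x u := by
    by_contra hiso
    push Not at hiso
    have := (h.1 x).1 hiso
    omega
  have hb : IsBroadcast G (Function.update f x 1) := by
    intro v
    by_cases hv : v = x
    · subst hv
      refine ⟨fun _ => by simp, fun _ => ?_⟩
      obtain ⟨u, hu⟩ := hiso
      have := ecc_pos hu
      simp; omega
    · rw [Function.update_of_ne hv]; exact h.1 v
  have hh : HearIndep G (Function.update f x 1) := by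
    intro u v hu huv
    by_contra hne
    by_cases hvx : v = x
    · subst hvx
      have hn : Near G u v 1 := by simpa [Hears] using huv.2
      rw [Function.update_of_ne hne] at hu
      exact hno u ⟨hu, near_mono (near_symm hn) hu⟩
    · have hv' : Hears G f u v := by
        unfold Hears at huv ⊢
        rwa [Function.update_of_ne hvx] at huv
      by_cases hux : u = x
      · subst hux; exact hno v hv'
      · rw [Function.update_of_ne hux] at hu
        exact hne (h.2.1 u v hu hv')
  have := h.2.2 _ hb hh (fun v => by
    by_cases hv : v = x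
    · subst hv; simp [hx0]
    · rw [Function.update_of_ne hv])
  have h1 := congrFun this x
  rw [Function.update_self, hx0] at h1
  omega

/-- In a maximal hearing independent broadcast, each broadcasting vertex `v` reaches its whole
component or has another broadcasting vertex at distance exactly `f v + 1`. -/
lemma IsMaxHear.partner {f : V → ℕ} (h : IsMaxHear G f) (v : V) (hv : 0 < f v) :
    (∀ x, G.Reachable v x → Near G v x (f v)) ∨
      ∃ u, u ≠ v ∧ 0 < f u ∧ Near G v u (f v + 1) ∧ ¬ Near G v u (f v) := by
  classical
  by_contra hno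
  push Not at hno
  obtain ⟨⟨x0, hx0, hx0'⟩, hno⟩ := hno
  have hecc : f v + 1 ≤ ecc G v := by
    have h1 := dist_le_ecc (G := G) v x0
    have h2 : ¬ G.dist v x0 ≤ f v := fun h => hx0' ⟨hx0, h⟩
    omega
  have hiso : ¬ ∀ u, ¬ G.Adj v u := by
    intro hiso
    have := ecc_isolated hiso
    omega
  have hb : IsBroadcast G (Function.update f v (f v + 1)) := by
    intro w
    by_cases hw : w = v
    · subst hw
      exact ⟨fun h => absurd h hiso, fun _ => by simpa using hecc⟩
    · rw [Function.update_of_ne hw]; exact h.1 w
  have hh : HearIndep G (Function.update f v (f v + 1)) := by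
    intro a b ha hab
    by_contra hne
    by_cases hbv : b = v
    · subst hbv
      rw [Function.update_of_ne hne] at ha
      have hn : Near G a b (f b + 1) := by simpa [Hears] using hab.2
      have := hno a hne ha (near_symm hn)
      exact hne (h.2.1 a b ha ⟨hv, near_symm this⟩)
    · have hab' : Hears G f a b := by
        unfold Hears at hab ⊢
        rwa [Function.update_of_ne hbv] at hab
      have ha' : 0 < f a := by
        by_cases hav : a = v
        · subst hav; exact hv
        · rwa [Function.update_of_ne hav] at ha
      exact hne (h.2.1 a b ha' hab')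
  have := h.2.2 _ hb hh (fun w => by
    by_cases hw : w = v
    · subst hw; simp
    · rw [Function.update_of_ne hw])
  have h1 := congrFun this v
  rw [Function.update_self] at h1
  omega

end Pool.Agent.Q292.Broadcast
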