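import Mathlib

/-!
# Broadcasts on finite graphs: definitions

All notions are defined for every finite simple graph. Distances are only compared inside a
connected component (`Near`), so that on a disconnected graph a broadcast is a union of broadcasts
on the components.
-/

namespace Pool.Agent.Q292.Broadcast

open SimpleGraph Finset

variable {V : Type*}

/-- `x` and `y` lie in one component of `G`, at distance at most `r`. -/
def Near (G : SimpleGraph V) (x y : V) (r : ℕ) : Prop := G.Reachable x y ∧ G.dist x y ≤ r

/-- The eccentricity of `v` in its component (Mathlib's distance between vertices of different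
components is `0`). -/
noncomputable def ecc [Fintype V] (G : SimpleGraph V) (v : V) : ℕ := univ.sup fun u => G.dist v u

/-- Broadcasts: `f v = 1` if `v` is the only vertex of its component, otherwise `f v ≤ e(v)`. -/
def IsBroadcast [Fintype V] (G : SimpleGraph V) (f : V → ℕ) : Prop :=
  ∀ v, ((∀ u, ¬ G.Adj v u) → f v = 1) ∧ ((∃ u, G.Adj v u) → f v ≤ ecc G v)

/-- The cost of a broadcast. -/
def cost [Fintype V] (f : V → ℕ) : ℕ := ∑ v, f v

/-- `u` hears `f` from the broadcasting vertex `v`. -/
def Hears (G : SimpleGraph V) (f : V → ℕ) (u v : V) : Prop := 0 < f v ∧ Near G u v (f v)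

/-- Boundary independence: a vertex `x` that hears `f` from at least two vertices satisfies
`d(x,u) ≥ f(u)` for all broadcasting vertices `u` (in its component). -/
def BnIndep (G : SimpleGraph V) (f : V → ℕ) : Prop :=
  ∀ x, (∃ u v, u ≠ v ∧ Hears G f x u ∧ Hears G f x v) →
    ∀ u, 0 < f u → G.Reachable x u → f u ≤ G.dist x u

/-- Hearing independence: no broadcasting vertex hears `f` from another vertex. -/
def HearIndep (G : SimpleGraph V) (f : V → ℕ) : Prop :=
  ∀ u v, 0 < f u → Hears G f u v → u = v

/-- `f` is a maximal bn-independent broadcast. -/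
def IsMaxBn [Fintype V] (G : SimpleGraph V) (f : V → ℕ) : Prop :=
  IsBroadcast G f ∧ BnIndep G f ∧
    ∀ g, IsBroadcast G g → BnIndep G g → (∀ v, f v ≤ g v) → g = f

/-- `f` is a maximal hearing independent broadcast. -/
def IsMaxHear [Fintype V] (G : SimpleGraph V) (f : V → ℕ) : Prop :=
  IsBroadcast G f ∧ HearIndep G f ∧
    ∀ g, IsBroadcast G g → HearIndep G g → (∀ v, f v ≤ g v) → g = f

/-- The lower bn-independent broadcast number: the least cost of a maximal bn-independent
broadcast. -/
noncomputable def ibn [Fintype V] (G : SimpleGraph V) : ℕ :=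
  sInf {c | ∃ f, IsMaxBn G f ∧ cost f = c}

/-- The least cost of a maximal hearing independent broadcast. -/
noncomputable def ih [Fintype V] (G : SimpleGraph V) : ℕ :=
  sInf {c | ∃ f, IsMaxHear G f ∧ cost f = c}

variable {G : SimpleGraph V} {x y z : V} {r s : ℕ}

lemma near_refl (G : SimpleGraph V) (x : V) (r : ℕ) : Near G x x r := ⟨Reachable.refl _, by simp⟩

lemma near_symm (h : Near G x y r) : Near G y x r := ⟨h.1.symm, by rw [dist_comm]; exact h.2⟩

lemma near_mono (h : Near G x y r) (hrs : r ≤ s) : Near G x y s := ⟨h.1, h.2.trans hrs⟩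

lemma near_of_walk (p : G.Walk x y) (h : p.length ≤ r) : Near G x y r :=
  ⟨p.reachable, (dist_le p).trans h⟩

lemma near_iff_walk : Near G x y r ↔ ∃ p : G.Walk x y, p.length ≤ r := by
  constructor
  · rintro ⟨h1, h2⟩
    obtain ⟨p, hp⟩ := h1.exists_walk_length_eq_dist
    exact ⟨p, by omega⟩
  · rintro ⟨p, hp⟩
    exact near_of_walk p hp

lemma near_trans (h : Near G x y r) (h' : Near G y z s) : Near G x z (r + s) := by
  rw [near_iff_walk] at *
  obtain ⟨p, hp⟩ := h
  obtain ⟨q, hq⟩ := h'
  exact ⟨p.append q, by rw [Walk.length_append]; omega⟩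

lemma near_adj (h : G.Adj x y) : Near G x y 1 := near_of_walk h.toWalk (by simp)

lemma near_split (h : Near G x y (r + s)) : ∃ z, Near G x z r ∧ Near G z y s := by
  obtain ⟨p, hp⟩ := near_iff_walk.1 h
  refine ⟨p.getVert r, near_of_walk (p.take r) ?_, near_of_walk (p.drop r) ?_⟩
  · rw [Walk.take_length]; omega
  · rw [Walk.drop_length]; omega

end Pool.Agent.Q292.Broadcast
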